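import Pool.Agent.PCP.Fin

/-!
# `MP_a6fb51_lc`: no constant factor approximation of the mixed metric dimension unless P = NP
-/

set_option autoImplicit false

namespace Pool.Agent.Results.MP_a6fb51_lc.ConstantFactorHard

open Turing Computability
open Pool.Agent.PT Pool.Agent.Book19 Pool.Agent.MMD Pool.Agent.WC2 Pool.Agent.PCP

/-- For every constant `c`:
(1) the gap problem is NP-hard: every language `L` in NP (over a finite alphabet) has a reduction `f`,
computable in polynomial time, to connected graphs with a number `K`, such that the mixed metric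
dimension is at most `K` for `x ∈ L` and larger than `c K` for `x ∉ L`;
(2) the search problem is NP-hard: every language `L` in NP is decided in polynomial time with one
query to any solver `A` of the problem to find a mixed resolving set of size at most `c mdim G`, i.e.
`x ∈ L ↔ A (g x) ∈ D` with `g` computable in polynomial time and `D` in P;
(3) if some solver is computable in polynomial time then P = NP. -/
theorem result (c : ℝ) :
    (∀ (Γ : Type) [Fintype Γ] (L : Set (List Γ)), InNP L →
      ∃ f : List Γ → GraphNum,
        Nonempty (TM2ComputableInPolyTime (encodingList Γ).encode GraphNum.enc f) ∧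
        ∀ x, (f x).G.Connected ∧ (x ∈ L → mdim (f x).G ≤ (f x).K) ∧
          (x ∉ L → c * (f x).K < mdim (f x).G)) ∧
    (∀ (Γ : Type) [Fintype Γ] (L : Set (List Γ)), InNP L →
      ∃ (g : List Γ → List Bool) (D : Set (List Bool)), PolyTime g ∧ InP Bool D ∧
        (∀ x, ∃ (n : ℕ) (G : SimpleGraph (Fin n)), G.Connected ∧ g x = adjBits G) ∧
        ∀ A : List Bool → List Bool, Approx c A → ∀ x, x ∈ L ↔ A (g x) ∈ D) ∧
    ((∃ A : List Bool → List Bool, PolyTime A ∧ Approx c A) →
      ∀ (Γ : Type) [Fintype Γ] (L : Set (List Γ)), InNP L → InP Γ L) :=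
  ⟨fun _ _ L hL => gap_hard c L hL, fun _ _ L hL => search_hard c L hL,
    fun ⟨A, hA, h⟩ _ _ L hL => approx_imp c A hA h L hL⟩

end Pool.Agent.Results.MP_a6fb51_lc.ConstantFactorHard
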